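import Mathlib

/-!
# Countable groups in groups with two generators, without new conjugacies
-/

set_option autoImplicit false

namespace Pool.Agent.R701.Bass

/-- the infinite cyclic group -/
abbrev Z := Multiplicative ℤ

section delta

variable {Γ : Type} [Group Γ]

/-- the elements of the first coordinate of the unrestricted wreath product -/
def delta : Γ →* Γ ≀ᵣ Z where
  toFun x := ⟨fun z => if z = 1 then x else 1, 1⟩
  map_one' := by
    ext z
    · simp
    · rfl
  map_mul' x y := by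
    ext z
    · by_cases h : z = 1 <;> simp [h]
    · simp

theorem delta_left (x : Γ) (z : Z) : (delta x).left z = if z = 1 then x else 1 := rfl

theorem delta_right (x : Γ) : (delta x).right = 1 := rfl

theorem conj_delta_left (a : Γ ≀ᵣ Z) (x : Γ) :
    (a * delta x * a⁻¹).left a.right = a.left a.right * x * (a.left a.right)⁻¹ := by
  simp [delta_left, delta_right]

theorem delta_inj : Function.Injective (delta : Γ →* Γ ≀ᵣ Z) := by
  intro x y h
  have h1 := congrArg (fun a => RegularWreathProduct.left a 1) h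
  simpa [delta_left] using h1

theorem delta_reflects {x y : Γ} (h : IsConj (delta x) (delta y)) : IsConj x y := by
  obtain ⟨a, ha⟩ := isConj_iff.1 h
  have h1 := conj_delta_left a x
  rw [ha, delta_left] at h1
  by_cases h2 : a.right = 1
  · rw [if_pos h2] at h1
    exact isConj_iff.2 ⟨_, h1.symm⟩
  · rw [if_neg h2] at h1
    have h3 : x = 1 := by
      have h4 : a.left a.right * x = a.left a.right := by
        have h5 := congrArg (· * a.left a.right) h1.symm
        simpa using h5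
      simpa using h4
    subst h3
    rw [map_one, mul_one, mul_inv_cancel] at ha
    have h4 : y = 1 := delta_inj (by rw [← ha, map_one])
    rw [h4]

end delta

/-- powers of two have different differences -/
theorem two_pow_diff {a b i j : ℕ} (hij : i ≠ j)
    (h : (2 : ℤ) ^ a - 2 ^ b = 2 ^ i - 2 ^ j) : a = i ∧ b = j := by
  have key : ∀ a b i j : ℕ, a < b → i < j → (2 : ℤ) ^ a - 2 ^ b = 2 ^ i - 2 ^ j → a = i := by
    intro a b i j hab hij h
    have hle : ∀ a b i j : ℕ, a < b → i < j → (2 : ℤ) ^ a - 2 ^ b = 2 ^ i - 2 ^ j → ¬ a < i := by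
      intro a b i j hab hij h hai
      obtain ⟨c, rfl⟩ := Nat.exists_eq_add_of_lt hab
      obtain ⟨d, rfl⟩ := Nat.exists_eq_add_of_lt hij
      obtain ⟨e, rfl⟩ := Nat.exists_eq_add_of_lt hai
      have h0 : (2 : ℤ) ^ a ≠ 0 := by positivity
      have h1 : (2 : ℤ) ^ a * (1 - 2 * 2 ^ c) = 2 ^ a * (2 * (2 ^ e - 2 ^ e * 2 ^ (d + 1))) := by
        have e1 : (2 : ℤ) ^ (a + c + 1) = 2 ^ a * (2 * 2 ^ c) := by ring
        have e2 : (2 : ℤ) ^ (a + e + 1) = 2 ^ a * (2 * 2 ^ e) := by ring
        have e3 : (2 : ℤ) ^ (a + e + 1 + d + 1) = 2 ^ a * (2 * (2 ^ e * 2 ^ (d + 1))) := by ring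
        rw [e1, e2, e3] at h
        linarith
      have h2 := mul_left_cancel₀ h0 h1
      have h3 : (2 : ℤ) ∣ 1 := ⟨2 ^ c + (2 ^ e - 2 ^ e * 2 ^ (d + 1)), by linarith⟩
      norm_num at h3
    rcases lt_trichotomy a i with h1 | h1 | h1
    · exact absurd h1 (hle a b i j hab hij h)
    · exact h1
    · exact absurd h1 (hle i j a b hij hab h.symm)
  have hmono : StrictMono (fun n : ℕ => (2 : ℤ) ^ n) := pow_right_strictMono₀ (by norm_num)
  rcases lt_trichotomy a b with hab | rfl | hab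
  · have h1 : (2 : ℤ) ^ a < 2 ^ b := hmono hab
    have h2 : i < j := hmono.lt_iff_lt.1 (by linarith)
    have h3 := key a b i j hab h2 h
    subst h3
    refine ⟨rfl, hmono.injective ?_⟩
    linarith
  · exfalso
    apply hij
    apply hmono.injective
    change (2 : ℤ) ^ i = 2 ^ j
    linarith
  · have h1 : (2 : ℤ) ^ b < 2 ^ a := hmono hab
    have h2 : j < i := hmono.lt_iff_lt.1 (by linarith)
    have h3 := key b a j i hab h2 (by linarith)
    subst h3
    refine ⟨hmono.injective ?_, rfl⟩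
    linarith

section embedding

variable {Γ : Type} [Group Γ]

open Classical in
/-- the function with the values `v i` at the powers of two -/
noncomputable def fn (v : ℕ → Γ) (z : Z) : Γ :=
  if h : ∃ i : ℕ, Multiplicative.toAdd z = 2 ^ i then v h.choose else 1

theorem fn_pow (v : ℕ → Γ) (i : ℕ) : fn v (Multiplicative.ofAdd ((2 : ℤ) ^ i)) = v i := by
  have h : ∃ k : ℕ, Multiplicative.toAdd (Multiplicative.ofAdd ((2 : ℤ) ^ i)) = 2 ^ k := ⟨i, rfl⟩
  unfold fn
  rw [dif_pos h]
  have h1 := h.choose_spec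
  have hmono : StrictMono (fun n : ℕ => (2 : ℤ) ^ n) := pow_right_strictMono₀ (by norm_num)
  have h2 : i = h.choose := hmono.injective h1
  rw [← h2]

theorem fn_ne {v : ℕ → Γ} {z : Z} (h : fn v z ≠ 1) : ∃ i : ℕ, Multiplicative.toAdd z = 2 ^ i := by
  by_contra hne
  apply h
  unfold fn
  rw [dif_neg hne]

/-- the first generator -/
noncomputable def Fg (v : ℕ → Γ) : Γ ≀ᵣ Z := ⟨fn v, 1⟩

/-- the second generator -/
def Sg : Γ ≀ᵣ Z := ⟨1, Multiplicative.ofAdd 1⟩

theorem Sg_zpow (m : ℤ) : (Sg : Γ ≀ᵣ Z) ^ m = ⟨1, Multiplicative.ofAdd m⟩ := by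
  have h : (Sg : Γ ≀ᵣ Z) = RegularWreathProduct.inl (Multiplicative.ofAdd 1) := rfl
  rw [h, ← map_zpow, ← ofAdd_zsmul]
  simp
  rfl

/-- the conjugates of the first generator -/
theorem conj_Fg (v : ℕ → Γ) (m : ℤ) :
    (Sg : Γ ≀ᵣ Z) ^ (-m) * Fg v * Sg ^ m = ⟨fun z => fn v (Multiplicative.ofAdd m * z), 1⟩ := by
  rw [Sg_zpow, Sg_zpow]
  ext z
  · simp [Fg]
  · simp [Fg]

theorem comm_mk (a b : Z → Γ) :
    (⟨a, 1⟩ : Γ ≀ᵣ Z) * ⟨b, 1⟩ * (⟨a, 1⟩ : Γ ≀ᵣ Z)⁻¹ * (⟨b, 1⟩ : Γ ≀ᵣ Z)⁻¹ =
      ⟨fun z => a z * b z * (a z)⁻¹ * (b z)⁻¹, 1⟩ := by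
  ext z
  · simp
  · simp

theorem delta_comm (v : ℕ → Γ) {i j : ℕ} (hij : i ≠ j) :
    delta (v i * v j * (v i)⁻¹ * (v j)⁻¹) ∈
      Subgroup.closure ({Fg v, Sg} : Set (Γ ≀ᵣ Z)) := by
  set L := Subgroup.closure ({Fg v, Sg} : Set (Γ ≀ᵣ Z))
  have hF : Fg v ∈ L := Subgroup.subset_closure (by simp)
  have hS : (Sg : Γ ≀ᵣ Z) ∈ L := Subgroup.subset_closure (by simp)
  have hc : ∀ m : ℤ, (⟨fun z => fn v (Multiplicative.ofAdd m * z), 1⟩ : Γ ≀ᵣ Z) ∈ L := by
    intro m
    rw [← conj_Fg]
    exact L.mul_mem (L.mul_mem (L.zpow_mem hS _) hF) (L.zpow_mem hS _)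
  have h1 := L.mul_mem (L.mul_mem (L.mul_mem (hc (2 ^ i)) (hc (2 ^ j))) (L.inv_mem (hc (2 ^ i))))
    (L.inv_mem (hc (2 ^ j)))
  rw [comm_mk] at h1
  convert h1 using 1
  ext z
  · rw [delta_left]
    simp only
    by_cases hz : z = 1
    · subst hz
      rw [if_pos rfl, mul_one, mul_one, fn_pow, fn_pow]
    · rw [if_neg hz]
      by_cases ha : fn v (Multiplicative.ofAdd (2 ^ i) * z) = 1
      · rw [ha]; simp
      · by_cases hb : fn v (Multiplicative.ofAdd (2 ^ j) * z) = 1
        · rw [hb]; simp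
        · exfalso
          obtain ⟨k, hk⟩ := fn_ne ha
          obtain ⟨l, hl⟩ := fn_ne hb
          rw [toAdd_mul, toAdd_ofAdd] at hk hl
          have h2 : (2 : ℤ) ^ k - 2 ^ l = 2 ^ i - 2 ^ j := by linarith
          obtain ⟨rfl, rfl⟩ := two_pow_diff hij h2
          apply hz
          have h3 : Multiplicative.toAdd z = 0 := by linarith
          exact h3
  · rfl

end embedding

/-- the function with the value `x` on the half line -/
def half {Γ : Type} [Group Γ] (x : Γ) : Γ ≀ᵣ Z :=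
  ⟨fun z => if 0 ≤ Multiplicative.toAdd z then x else 1, 1⟩

theorem comm_half {Γ : Type} [Group Γ] (x : Γ) :
    half x * Sg * (half x)⁻¹ * Sg⁻¹ = delta x := by
  ext z
  · simp only [half, Sg, RegularWreathProduct.mul_left, RegularWreathProduct.inv_left, Pi.mul_apply,
      RegularWreathProduct.mul_right, RegularWreathProduct.inv_right, delta_left, Pi.inv_apply,
      Pi.one_apply, inv_one, mul_one, one_mul]
    have e1 : Multiplicative.toAdd ((Multiplicative.ofAdd (1 : ℤ))⁻¹ * z) =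
        Multiplicative.toAdd z - 1 := by
      rw [toAdd_mul, toAdd_inv, toAdd_ofAdd]; ring
    rw [e1]
    by_cases h0 : z = 1
    · subst h0
      simp
    · have h1 : Multiplicative.toAdd z ≠ 0 := fun h' => h0 h'
      rw [if_neg h0]
      by_cases h2 : 0 ≤ Multiplicative.toAdd z
      · rw [if_pos h2, if_pos (by omega), mul_inv_cancel]
      · rw [if_neg h2, if_neg (by omega), inv_one, mul_one]
  · simp [half, Sg, delta_right]

theorem closure_pair_eq_top {G : Type} [Group G] (a b : G) :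
    Subgroup.closure ({⟨a, Subgroup.subset_closure (by simp)⟩,
      ⟨b, Subgroup.subset_closure (by simp)⟩} : Set (Subgroup.closure ({a, b} : Set G))) = ⊤ := by
  have h1 := Subgroup.closure_closure_coe_preimage (k := ({a, b} : Set G))
  rw [← h1]
  congr 1
  ext x
  simp only [Set.mem_insert_iff, Set.mem_singleton_iff, Set.mem_preimage]
  constructor
  · rintro (rfl | rfl)
    · exact Or.inl rfl
    · exact Or.inr rfl
  · rintro (hx | hx)
    · exact Or.inl (Subtype.ext hx)
    · exact Or.inr (Subtype.ext hx)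

/-- every countable group `U` has a homomorphism to a group with two generators such that only
conjugate elements of `U` get conjugate images -/
theorem exists_two_generated (U : Type) [Group U] [Countable U] :
    ∃ (L : Type) (_ : Group L) (θ : U →* L), (∃ a b : L, Subgroup.closure {a, b} = ⊤) ∧
      ∀ x y : U, IsConj (θ x) (θ y) → IsConj x y := by
  classical
  obtain ⟨h, hh⟩ := exists_surjective_nat U
  -- the elements of the first wreath product
  let v : ℕ → U ≀ᵣ Z := fun n => if n = 0 then Sg else half (h (n - 1))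
  have hv0 : v 0 = Sg := if_pos rfl
  have hv1 : ∀ k, v (k + 1) = half (h k) := fun k => if_neg (Nat.succ_ne_zero k)
  have hmem : ∀ x : U, delta (delta x) ∈ Subgroup.closure ({Fg v, Sg} : Set ((U ≀ᵣ Z) ≀ᵣ Z)) := by
    intro x
    obtain ⟨k, rfl⟩ := hh x
    have h1 := delta_comm v (Nat.succ_ne_zero k)
    rw [hv0, hv1, comm_half] at h1
    exact h1
  refine ⟨Subgroup.closure ({Fg v, Sg} : Set ((U ≀ᵣ Z) ≀ᵣ Z)), inferInstance,
    ((delta : U ≀ᵣ Z →* (U ≀ᵣ Z) ≀ᵣ Z).comp delta).codRestrict _ hmem,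
    ⟨_, _, closure_pair_eq_top (Fg v) Sg⟩, ?_⟩
  intro x y hxy
  apply delta_reflects
  apply delta_reflects
  exact MonoidHom.map_isConj (Subgroup.subtype _) hxy

end Pool.Agent.R701.Bass
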