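import Pool.Agent.R701.Bass.Tr

/-!
# From a finite field to its prime field
-/

set_option autoImplicit false
set_option linter.unusedSectionVars false

namespace Pool.Agent.R701.Bass

open MonoidAlgebra
open Pool.Agent.H23R2.Cyc (ell ell_single ell_mul_comm ell_eq_sum tf tf_apply ell_mapDomain)
open Pool.Agent.H26R2.Bass (tau tau_eq ind ell_class)

universe u v w

/-! ### restriction of scalars -/

section res

variable (K : Type u) [Field K] {F : Type v} [Field F] [Algebra K F] {G : Type w} [Group G] {d : ℕ}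
  (b : Module.Basis (Fin d) K F)

/-- scalars as matrices -/
noncomputable def rf : F →+* Matrix (Fin d) (Fin d) (MonoidAlgebra K G) :=
  ((singleOneRingHom (R := K) (M := G)).mapMatrix).comp (Algebra.leftMulMatrix b).toRingHom

/-- group elements as matrices -/
noncomputable def rg (d : ℕ) : G →* Matrix (Fin d) (Fin d) (MonoidAlgebra K G) :=
  ((Matrix.scalar (Fin d) : MonoidAlgebra K G →+* _) : MonoidAlgebra K G →* _).comp
    (MonoidAlgebra.of K G)

theorem rfg_comm (x : F) (y : G) : Commute (rf K b x) (rg K d y) := by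
  change rf K b x * rg K d y = rg K d y * rf K b x
  ext1 i j
  simp [rf, rg, Matrix.scalar_apply, Matrix.mul_diagonal, Matrix.diagonal_mul]

/-- the matrices of the elements of the group ring -/
noncomputable def rho : MonoidAlgebra F G →+* Matrix (Fin d) (Fin d) (MonoidAlgebra K G) :=
  MonoidAlgebra.liftNCRingHom (rf K b) (rg K d) (rfg_comm K b)

theorem rho_single (h : G) (r : F) (i j : Fin d) :
    rho K b (single h r) i j = single h (Algebra.leftMulMatrix b r i j) := by
  rw [rho, liftNCRingHom_single]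
  simp [rf, rg, Matrix.scalar_apply, Matrix.mul_diagonal]

theorem trace_rho (g : G) (x : MonoidAlgebra F G) :
    ∑ a, ell (ind K g) (rho K b x a a) = Algebra.trace K F (ell (ind F g) x) := by
  classical
  induction x using MonoidAlgebra.induction_linear with
  | zero => simp
  | add x y hx hy =>
    rw [map_add, map_add, map_add, ← hx, ← hy, ← Finset.sum_add_distrib]
    refine Finset.sum_congr rfl fun a _ => ?_
    rw [Matrix.add_apply, map_add]
  | single h r =>
    rw [ell_single]
    have h1 : ∀ a ∈ (Finset.univ : Finset (Fin d)), ell (ind K g) (rho K b (single h r) a a) =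
        Algebra.leftMulMatrix b r a a * ind K g h := by
      intro a _
      rw [rho_single, ell_single]
    rw [Finset.sum_congr rfl h1, ← Finset.sum_mul]
    have h2 : ∑ a, Algebra.leftMulMatrix b r a a = Algebra.trace K F r := by
      rw [Algebra.trace_eq_matrix_trace b]
      rfl
    rw [h2]
    unfold ind
    split_ifs <;> simp

/-- restriction of scalars for idempotent matrices -/
theorem exists_res {n : ℕ} (A : Matrix (Fin n) (Fin n) (MonoidAlgebra F G)) (hA : A * A = A)
    [Module.Finite K F] :
    ∃ (k : ℕ) (B : Matrix (Fin k) (Fin k) (MonoidAlgebra K G)), B * B = B ∧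
      ∀ g : G, tf (ind K g) B = Algebra.trace K F (tf (ind F g) A) := by
  classical
  let b := Module.finBasis K F
  let C : Matrix (Fin n × Fin _) (Fin n × Fin _) (MonoidAlgebra K G) :=
    Matrix.compRingEquiv (Fin n) (Fin _) (MonoidAlgebra K G) (A.map (rho K b))
  have hC : C * C = C := by
    rw [← map_mul, ← Matrix.map_mul, hA]
  let e := (finProdFinEquiv (m := n) (n := Module.finrank K F)).symm
  refine ⟨_, C.submatrix e e, ?_, fun g => ?_⟩
  · rw [Matrix.submatrix_mul_equiv, hC]
  · rw [tf_apply, tf_apply, map_sum]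
    have h1 : ∑ i, ell (ind K g) (C.submatrix e e i i) = ∑ q, ell (ind K g) (C q q) :=
      Equiv.sum_comp e fun q => ell (ind K g) (C q q)
    rw [h1, Fintype.sum_prod_type]
    refine Finset.sum_congr rfl fun i _ => ?_
    rw [← trace_rho K b g (A i i)]
    rfl

end res

/-! ### the primitive idempotent of the group ring of the multiplicative group -/

section ten

variable {F : Type u} [Field F] [Fintype F] [DecidableEq F]

/-- the idempotent -/
noncomputable def ee : MonoidAlgebra F Fˣ := ∑ c : Fˣ, single c (-((c⁻¹ : Fˣ) : F))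

theorem card_units : ((Fintype.card Fˣ : ℕ) : F) = -1 := by
  rw [Fintype.card_units, Nat.cast_sub Fintype.card_pos, FiniteField.cast_card_eq_zero]
  simp

theorem ee_idem : (ee : MonoidAlgebra F Fˣ) * ee = ee := by
  unfold ee
  rw [Finset.sum_mul_sum]
  have h1 : ∀ c ∈ (Finset.univ : Finset Fˣ), (∑ c' : Fˣ, (single c (-((c⁻¹ : Fˣ) : F)) : MonoidAlgebra F Fˣ) *
      single c' (-((c'⁻¹ : Fˣ) : F))) = ∑ x : Fˣ, single x (((x⁻¹ : Fˣ) : F)) := by
    intro c _
    rw [← Equiv.sum_comp (Equiv.mulLeft c) fun x : Fˣ => (single x (((x⁻¹ : Fˣ) : F)) : MonoidAlgebra F Fˣ)]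
    refine Finset.sum_congr rfl fun c' _ => ?_
    rw [single_mul_single]
    congr 1
    simp [mul_comm]
  rw [Finset.sum_congr rfl h1, Finset.sum_const, Finset.card_univ, Finset.smul_sum]
  refine Finset.sum_congr rfl fun c _ => ?_
  rw [smul_single]
  congr 1
  rw [nsmul_eq_mul, card_units]
  ring

variable {G : Type v} [Group G]

/-- the twist -/
noncomputable def tw (x : MonoidAlgebra F G) : MonoidAlgebra F (G × Fˣ) :=
  mapDomainRingHom F (MonoidHom.inl G Fˣ) x * mapDomainRingHom F (MonoidHom.inr G Fˣ) ee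

theorem inl_inr_comm (x : MonoidAlgebra F G) (y : MonoidAlgebra F Fˣ) :
    mapDomainRingHom F (MonoidHom.inr G Fˣ) y * mapDomainRingHom F (MonoidHom.inl G Fˣ) x =
      mapDomainRingHom F (MonoidHom.inl G Fˣ) x * mapDomainRingHom F (MonoidHom.inr G Fˣ) y := by
  induction x using MonoidAlgebra.induction_linear with
  | zero => simp
  | add x x' hx hx' => rw [map_add, mul_add, add_mul, hx, hx']
  | single h r =>
    induction y using MonoidAlgebra.induction_linear with
    | zero => simp
    | add y y' hy hy' => rw [map_add, mul_add, add_mul, hy, hy']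
    | single c s => simp [mul_comm]

theorem tw_mul (x y : MonoidAlgebra F G) : tw x * tw y = tw (x * y) := by
  unfold tw
  rw [map_mul, mul_assoc, ← mul_assoc (mapDomainRingHom F (MonoidHom.inr G Fˣ) ee), inl_inr_comm,
    mul_assoc, ← map_mul (mapDomainRingHom F (MonoidHom.inr G Fˣ)), ee_idem, ← mul_assoc]

theorem tw_add (x y : MonoidAlgebra F G) : tw (x + y) = tw x + tw y := by
  unfold tw
  rw [map_add, add_mul]

theorem tw_sum {ι : Type} (s : Finset ι) (f : ι → MonoidAlgebra F G) :
    tw (∑ i ∈ s, f i) = ∑ i ∈ s, tw (f i) := by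
  unfold tw
  rw [map_sum, Finset.sum_mul]

theorem ell_tw (g : G) (c : Fˣ) (x : MonoidAlgebra F G) :
    ell (ind F (g, c)) (tw x) = ell (ind F g) x * (-((c⁻¹ : Fˣ) : F)) := by
  classical
  induction x using MonoidAlgebra.induction_linear with
  | zero => simp [tw]
  | add x y hx hy => rw [tw_add, map_add, map_add, hx, hy]; ring
  | single h r =>
    rw [ell_single]
    unfold tw ee
    rw [map_sum, Finset.mul_sum, map_sum]
    have h1 : ∀ c' ∈ (Finset.univ : Finset Fˣ), ell (ind F (g, c))
        (mapDomainRingHom F (MonoidHom.inl G Fˣ) (single h r) *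
          mapDomainRingHom F (MonoidHom.inr G Fˣ) (single c' (-((c'⁻¹ : Fˣ) : F)))) =
        if c' = c then r * ind F g h * (-((c⁻¹ : Fˣ) : F)) else 0 := by
      intro c' _
      have h2 : ∀ s : F, mapDomainRingHom F (MonoidHom.inl G Fˣ) (single h r) *
          mapDomainRingHom F (MonoidHom.inr G Fˣ) (single c' s) = single (h, c') (r * s) := by
        intro s
        simp
      rw [h2, ell_single]
      have h3 : IsConj (h, c') (g, c) ↔ IsConj h g ∧ c' = c := by
        constructor
        · intro h4
          refine ⟨MonoidHom.map_isConj (MonoidHom.fst G Fˣ) h4, ?_⟩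
          exact isConj_iff_eq.1 (MonoidHom.map_isConj (MonoidHom.snd G Fˣ) h4)
        · rintro ⟨h4, rfl⟩
          obtain ⟨y, hy⟩ := isConj_iff.1 h4
          exact isConj_iff.2 ⟨(y, 1), by simp [hy]⟩
      by_cases hc : c' = c
      · subst hc
        rw [if_pos rfl]
        have h5 : ind F (g, c') (h, c') = ind F g h := by
          unfold ind
          by_cases hg : IsConj h g
          · rw [if_pos hg, if_pos (h3.2 ⟨hg, rfl⟩)]
          · rw [if_neg hg, if_neg (fun h6 => hg (h3.1 h6).1)]
        rw [h5]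
        ring
      · rw [if_neg hc]
        have h5 : ind F (g, c) (h, c') = 0 := by
          unfold ind
          rw [if_neg (fun h6 => hc (h3.1 h6).2)]
        rw [h5, mul_zero]
    rw [Finset.sum_congr rfl h1, Finset.sum_ite_eq', if_pos (Finset.mem_univ _)]

end ten

/-- from a finite field to its prime field -/
theorem to_prime_field {p : ℕ} [Fact p.Prime] {F : Type u} [Field F] [Finite F]
    [Algebra (ZMod p) F] {G : Type v} [Group G] {n : ℕ}
    (A : Matrix (Fin n) (Fin n) (MonoidAlgebra F G)) (hA : A * A = A) (g : G)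
    (hg : tf (ind F g) A ≠ 0) (hg0 : orderOf g = 0) :
    ∃ (k : ℕ) (B : Matrix (Fin k) (Fin k) (MonoidAlgebra (ZMod p) (G × Fˣ))) (h : G × Fˣ),
      B * B = B ∧ orderOf h = 0 ∧ tf (ind (ZMod p) h) B ≠ 0 := by
  classical
  let _ : Fintype F := Fintype.ofFinite F
  have : Module.Finite (ZMod p) F := Module.Finite.of_finite
  let A' : Matrix (Fin n) (Fin n) (MonoidAlgebra F (G × Fˣ)) := A.map tw
  have hA' : A' * A' = A' := by
    ext1 i j
    rw [Matrix.mul_apply]
    have h1 : ∀ k ∈ (Finset.univ : Finset (Fin n)), A' i k * A' k j = tw (A i k * A k j) :=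
      fun k _ => tw_mul _ _
    rw [Finset.sum_congr rfl h1, ← tw_sum, ← Matrix.mul_apply, hA]
    rfl
  obtain ⟨k, B, hB, hBt⟩ := exists_res (ZMod p) A' hA'
  have htw : ∀ c : Fˣ, tf (ind F (g, c)) A' = tf (ind F g) A * (-((c⁻¹ : Fˣ) : F)) := by
    intro c
    rw [tf_apply, tf_apply, Finset.sum_mul]
    exact Finset.sum_congr rfl fun i _ => ell_tw g c (A i i)
  obtain ⟨y, hy⟩ : ∃ y : F, Algebra.trace (ZMod p) F (tf (ind F g) A * y) ≠ 0 := by
    by_contra hcon
    push Not at hcon
    have h1 := (traceForm_nondegenerate (ZMod p) F).1 (tf (ind F g) A) (fun y => by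
      rw [Algebra.traceForm_apply]; exact hcon y)
    exact hg h1
  have hy0 : y ≠ 0 := by
    rintro rfl
    rw [mul_zero, map_zero] at hy
    exact hy rfl
  let c : Fˣ := (Units.mk0 (-y) (neg_ne_zero.2 hy0))⁻¹
  refine ⟨k, B, (g, c), hB, ?_, ?_⟩
  · have h1 := orderOf_map_dvd (MonoidHom.fst G Fˣ) (g, c)
    change orderOf g ∣ _ at h1
    rw [hg0] at h1
    exact Nat.eq_zero_of_zero_dvd h1
  · rw [hBt, htw]
    have h2 : -((c⁻¹ : Fˣ) : F) = y := by simp [c]
    rw [h2]
    exact hy

end Pool.Agent.R701.Bass
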