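import Pool.Agent.R701.Bass.Tr

/-!
# A group with two generators which contains all finitely presented groups
-/

set_option autoImplicit false

namespace Pool.Agent.R701.Bass

open MonoidAlgebra
open Pool.Agent.H23R2.Cyc (ell ell_single ell_mul_comm ell_eq_sum tf tf_apply ell_mapDomain)
open Pool.Agent.H26R2.Bass (tau tau_eq ind ell_class)

universe u v w

/-- the finite presentations -/
abbrev Pres : Type := Σ m : ℕ, Finset (FreeGroup (Fin m))

instance countable_freeGroup (α : Type) [Countable α] : Countable (FreeGroup α) :=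
  inferInstanceAs (Countable (Quot _))

/-- the group of a finite presentation -/
abbrev GP (i : Pres) : Type := FP i.1 i.2

instance countable_GP (i : Pres) : Countable (GP i) :=
  inferInstanceAs (Countable (Quotient _))

open Classical in
/-- the restricted direct product of all finitely presented groups -/
noncomputable def UU : Subgroup (∀ i : Pres, GP i) :=
  (FreeGroup.lift fun p : (Σ i : Pres, GP i) => (Pi.mulSingle p.1 p.2 : ∀ i : Pres, GP i)).range

instance : Countable UU := by
  have h : Function.Surjective (FreeGroup.lift fun p : (Σ i : Pres, GP i) =>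
      (Pi.mulSingle p.1 p.2 : ∀ i : Pres, GP i)).rangeRestrict :=
    MonoidHom.rangeRestrict_surjective _
  exact h.countable

/-- **one group with two generators** -/
theorem exists_universal :
    ∃ (L : Type) (_ : Group L), (∃ a b : L, Subgroup.closure {a, b} = ⊤) ∧
      ∀ i : Pres, ∃ ι : GP i →* L, ∀ x y, IsConj (ι x) (ι y) → IsConj x y := by
  classical
  obtain ⟨L, _, θ, hL, hθ⟩ := exists_two_generated UU
  refine ⟨L, inferInstance, hL, fun i => ?_⟩
  have hmem : ∀ x : GP i, (MonoidHom.mulSingle (fun i : Pres => GP i) i x : ∀ i : Pres, GP i) ∈ UU := by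
    intro x
    exact ⟨FreeGroup.of ⟨i, x⟩, by simp⟩
  let j : GP i →* UU := (MonoidHom.mulSingle (fun i : Pres => GP i) i).codRestrict UU hmem
  refine ⟨θ.comp j, fun x y hxy => ?_⟩
  have h1 : IsConj (j x) (j y) := hθ _ _ hxy
  have h2 := MonoidHom.map_isConj ((Pi.evalMonoidHom (fun i : Pres => GP i) i).comp UU.subtype) h1
  have h3 : ∀ x : GP i, ((Pi.evalMonoidHom (fun i : Pres => GP i) i).comp UU.subtype) (j x) = x := by
    intro x
    change (Pi.mulSingle i x : ∀ i : Pres, GP i) i = x
    exact Pi.mulSingle_eq_same i x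
  rw [h3, h3] at h2
  exact h2

/-- all idempotent matrices over all groups are seen by the group `L` -/
theorem to_universal {L : Type} [Group L]
    (hL : ∀ i : Pres, ∃ ι : GP i →* L, ∀ x y, IsConj (ι x) (ι y) → IsConj x y)
    {R : Type u} [CommRing R] {G : Type v} [Group G] {n : ℕ}
    (A : Matrix (Fin n) (Fin n) (MonoidAlgebra R G)) (hA : A * A = A) (g : G)
    (hg : tf (ind R g) A ≠ 0) (hg0 : orderOf g = 0) :
    ∃ (B : Matrix (Fin n) (Fin n) (MonoidAlgebra R L)) (l : L), B * B = B ∧ orderOf l = 0 ∧
      tf (ind R l) B ≠ 0 := by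
  obtain ⟨m, S, ψ, B, hB, hBA⟩ := exists_fp A hA
  rw [← hBA] at hg
  obtain ⟨h, hhg, hh⟩ := exists_class ψ B g hg
  have hh0 := orderOf_lift ψ hhg hg0
  obtain ⟨ι, hι⟩ := hL ⟨m, S⟩
  refine ⟨B.map (mapDomainRingHom R ι), ι h, ?_, ?_, ?_⟩
  · rw [← Matrix.map_mul, hB]
  · rw [orderOf_injective ι (inj_of_reflect ι hι), hh0]
  · rw [tf_reflect ι hι]
    exact hh

end Pool.Agent.R701.Bass
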