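import Pool.Agent.R701.Bass.Tr
import Pool.Agent.TH107.LB.Lin

/-!
# From a domain to finite fields
-/

set_option autoImplicit false

namespace Pool.Agent.R701.Bass

open MonoidAlgebra
open Pool.Agent.H23R2.Cyc (ell ell_single ell_mul_comm ell_eq_sum tf tf_apply ell_mapDomain)
open Pool.Agent.H26R2.Bass (tau tau_eq ind ell_class exists_lift tf_ch)
open Pool.Agent.H26R2.IdemLI (ch ch_coeff ch_injective)

universe u v w

/-- an idempotent matrix over a finite field of characteristic `p` with nonzero trace at `g` -/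
def Reach (p : ℕ) (n : ℕ) {G : Type v} [Group G] (g : G) : Prop :=
  ∃ (F : Type u) (_ : Field F) (_ : Finite F) (_ : Algebra (ZMod p) F)
    (B : Matrix (Fin n) (Fin n) (MonoidAlgebra F G)), B * B = B ∧ tf (ind F g) B ≠ 0

theorem reach_of_max {A : Type u} [CommRing A] [Algebra.FiniteType ℤ A] {p : ℕ} (hp : p.Prime)
    (hpA : ¬ IsUnit (p : A)) {G : Type v} [Group G] {n : ℕ}
    (E : Matrix (Fin n) (Fin n) (MonoidAlgebra A G)) (hE : E * E = E) (g : G)
    (hg : IsUnit (tf (ind A g) E)) : Reach.{u, v} p n g := by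
  obtain ⟨M, hM, hpM⟩ := exists_max_ideal_of_mem_nonunits (mem_nonunits_iff.2 hpA)
  have hFp : Fact p.Prime := ⟨hp⟩
  let _ : Field (A ⧸ M) := Ideal.Quotient.field M
  have hp0 : ((p : ℕ) : A ⧸ M) = 0 := by
    rw [← map_natCast (Ideal.Quotient.mk M)]
    exact Ideal.Quotient.eq_zero_iff_mem.2 hpM
  have hchar : CharP (A ⧸ M) p := by
    have h1 := (CharP.exists (A ⧸ M)).choose_spec
    have h2 : (CharP.exists (A ⧸ M)).choose ∣ p := (CharP.cast_eq_zero_iff (A ⧸ M) _ p).1 hp0
    rcases (Nat.dvd_prime hp).1 h2 with h3 | h3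
    · rw [h3] at h1
      exact absurd (CharP.char_ne_one (A ⧸ M) 1) (by simp)
    · rw [h3] at h1
      exact h1
  let _ : Algebra (ZMod p) (A ⧸ M) := ZMod.algebra (A ⧸ M) p
  have h0 : Algebra.FiniteType ℤ (A ⧸ M) :=
    Algebra.FiniteType.of_surjective (Ideal.Quotient.mkₐ ℤ M) Ideal.Quotient.mk_surjective
  have h1 : Algebra.FiniteType (ZMod p) (A ⧸ M) :=
    Algebra.FiniteType.of_restrictScalars_finiteType ℤ (ZMod p) (A ⧸ M)
  have h2 : Module.Finite (ZMod p) (A ⧸ M) :=
    finite_of_finite_type_of_isJacobsonRing (ZMod p) (A ⧸ M)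
  have h3 : Finite (A ⧸ M) := Module.finite_of_finite (ZMod p)
  refine ⟨A ⧸ M, inferInstance, h3, inferInstance,
    E.map (ch (Ideal.Quotient.mk M) G), ?_, ?_⟩
  · rw [← Matrix.map_mul, hE]
  · rw [tf_ch]
    exact (hg.map (Ideal.Quotient.mk M)).ne_zero

theorem reach {R : Type u} [CommRing R] [IsDomain R] {G : Type v} [Group G] {n : ℕ}
    (A : Matrix (Fin n) (Fin n) (MonoidAlgebra R G)) (hA : A * A = A) (g : G)
    (hg : tf (ind R g) A ≠ 0) :
    (CharZero R → ∃ N : ℕ, N ≠ 0 ∧ ∀ p : ℕ, p.Prime → ¬ p ∣ N → Reach.{u, v} p n g) ∧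
    (∀ p : ℕ, p.Prime → CharP R p → Reach.{u, v} p n g) := by
  classical
  let K := FractionRing R
  have hinjK : Function.Injective (algebraMap R K) := IsFractionRing.injective R K
  let AK : Matrix (Fin n) (Fin n) (MonoidAlgebra K G) := A.map (ch (algebraMap R K) G)
  have hAK : AK * AK = AK := by rw [← Matrix.map_mul, hA]
  let t : K := tf (ind K g) AK
  have ht : t ≠ 0 := by
    change tf (ind K g) (A.map (ch (algebraMap R K) G)) ≠ 0
    rw [tf_ch]
    intro h
    exact hg (hinjK (by rw [h, map_zero]))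
  let S : Finset K := insert t⁻¹ (Finset.univ.biUnion fun q : Fin n × Fin n =>
    (AK q.1 q.2).coeff.support.image (AK q.1 q.2).coeff)
  let A2 := Algebra.adjoin ℤ (S : Set K)
  let ι : A2 →+* K := A2.val.toRingHom
  have hι : Function.Injective ι := Subtype.val_injective
  obtain ⟨A0, hA0, hA0A⟩ := exists_lift ι hι AK hAK (by
    intro i j h
    by_cases hh : (AK i j).coeff h = 0
    · exact ⟨0, by rw [map_zero, hh]⟩
    · exact ⟨⟨(AK i j).coeff h, Algebra.subset_adjoin (Finset.mem_coe.2 (Finset.mem_insert_of_mem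
        (Finset.mem_biUnion.2 ⟨(i, j), Finset.mem_univ _,
          Finset.mem_image_of_mem _ (Finsupp.mem_support_iff.2 hh)⟩)))⟩, rfl⟩)
  have hft : Algebra.FiniteType ℤ A2 := by
    rw [← Subalgebra.fg_iff_finiteType]
    exact ⟨S, rfl⟩
  have hft2 : @Algebra.FiniteType ℤ A2 _ _ (Ring.toIntAlgebra A2) := by
    have h1 : (Ring.toIntAlgebra A2) = A2.algebra := Subsingleton.elim _ _
    rw [h1]
    exact hft
  have hti : t⁻¹ ∈ A2 := Algebra.subset_adjoin (Finset.mem_coe.2 (Finset.mem_insert_self _ _))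
  have ht0 : ι (tf (ind A2 g) A0) = t := by
    rw [← tf_ch, hA0A]
  have hunit : IsUnit (tf (ind A2 g) A0) := by
    refine IsUnit.of_mul_eq_one ⟨t⁻¹, hti⟩ (hι ?_)
    rw [map_mul, ht0, map_one]
    exact mul_inv_cancel₀ ht
  constructor
  · intro h0
    have h1 : CharZero K := charZero_of_injective_algebraMap hinjK
    have h2 : CharZero A2 := ⟨fun a b hab => by
      have h3 := congrArg ι hab
      rw [map_natCast, map_natCast] at h3
      exact Nat.cast_injective h3⟩
    obtain ⟨N, hN, hNp⟩ := Pool.Agent.TH107.LB.nonunit_primes A2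
    exact ⟨N, hN, fun p hp hpN => reach_of_max hp (hNp p hp hpN) A0 hA0 g hunit⟩
  · intro p hp hRp
    refine reach_of_max hp ?_ A0 hA0 g hunit
    have h1 : ((p : ℕ) : A2) = 0 := by
      apply hι
      rw [map_natCast, map_zero]
      have h2 : ((p : ℕ) : K) = algebraMap R K ((p : ℕ) : R) := (map_natCast _ _).symm
      rw [h2, CharP.cast_eq_zero, map_zero]
    rw [h1]
    exact not_isUnit_zero

end Pool.Agent.R701.Bass
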