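import Pool.Agent.H26R2.Bass.Main
import Pool.Agent.R701.Bass.Emb

/-!
# The trace under homomorphisms; finitely presented groups; one group with two generators
-/

set_option autoImplicit false

namespace Pool.Agent.R701.Bass

open MonoidAlgebra
open Pool.Agent.H23R2.Cyc (ell ell_single ell_mul_comm ell_eq_sum tf tf_apply ell_mapDomain)
open Pool.Agent.H26R2.Bass (tau tau_eq ind ell_class)

universe u v w

section hom

variable {R : Type u} [CommRing R] {G : Type v} [Group G] {Q : Type w} [Group Q] {n : ℕ}

theorem tf_map (φ : G →* Q) (A : Matrix (Fin n) (Fin n) (MonoidAlgebra R G)) (f : Q → R) :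
    tf f (A.map (mapDomainRingHom R φ)) = tf (fun g => f (φ g)) A := by
  rw [tf_apply, tf_apply]
  exact Finset.sum_congr rfl fun i _ => ell_mapDomain φ f (A i i)

/-- a nonzero value in the image comes from a nonzero value -/
theorem exists_class (φ : G →* Q) (A : Matrix (Fin n) (Fin n) (MonoidAlgebra R G)) (q : Q)
    (h : tf (ind R q) (A.map (mapDomainRingHom R φ)) ≠ 0) :
    ∃ g : G, IsConj (φ g) q ∧ tf (ind R g) A ≠ 0 := by
  by_contra hcon
  push Not at hcon
  apply h
  rw [tf_map, tf_apply, ← map_sum]
  apply ell_class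
  · intro a b hab
    have hab' : IsConj (φ a) (φ b) := MonoidHom.map_isConj φ hab
    show ind R q (φ a) = ind R q (φ b)
    unfold ind
    by_cases h : IsConj (φ a) q
    · rw [if_pos h, if_pos (hab'.symm.trans h)]
    · rw [if_neg h, if_neg (fun h' => h (hab'.trans h'))]
  · intro g hg
    have hc : IsConj (φ g) q := by
      by_contra hcon'
      apply hg
      show ind R q (φ g) = 0
      unfold ind
      rw [if_neg hcon']
    have h2 := hcon g hc
    rw [tf_apply] at h2
    rw [map_sum]
    exact h2

/-- homomorphisms which do not create conjugacies preserve the trace -/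
theorem tf_reflect (φ : G →* Q) (hφ : ∀ x y : G, IsConj (φ x) (φ y) → IsConj x y)
    (A : Matrix (Fin n) (Fin n) (MonoidAlgebra R G)) (g : G) :
    tf (ind R (φ g)) (A.map (mapDomainRingHom R φ)) = tf (ind R g) A := by
  rw [tf_map]
  congr 1
  congr 1
  funext h
  unfold ind
  by_cases h1 : IsConj h g
  · rw [if_pos h1, if_pos (MonoidHom.map_isConj φ h1)]
  · rw [if_neg h1, if_neg (fun h2 => h1 (hφ _ _ h2))]

theorem inj_of_reflect (φ : G →* Q) (hφ : ∀ x y : G, IsConj (φ x) (φ y) → IsConj x y) :
    Function.Injective φ := by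
  rw [injective_iff_map_eq_one]
  intro a ha
  have h1 : IsConj (φ a) (φ 1) := by rw [ha, map_one]
  exact isConj_one_right.1 (hφ _ _ h1).symm

theorem orderOf_conj {x y : G} (h : IsConj x y) : orderOf x = orderOf y := by
  obtain ⟨c, hc⟩ := isConj_iff.1 h
  rw [← hc]
  exact (orderOf_injective (MulAut.conj c).toMonoidHom (MulAut.conj c).injective x).symm

/-- infinite order lifts -/
theorem orderOf_lift (φ : G →* Q) {g : G} {q : Q} (h : IsConj (φ g) q) (hq : orderOf q = 0) :
    orderOf g = 0 := by
  rw [← orderOf_conj h] at hq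
  have h1 := orderOf_map_dvd φ g
  rw [hq] at h1
  exact Nat.eq_zero_of_zero_dvd h1

end hom

section fp

variable {R : Type u} [CommRing R]

theorem ell_coeff {Γ : Type v} [Group Γ] [DecidableEq Γ] (c : Γ) (x : MonoidAlgebra R Γ) :
    ell (fun h => if h = c then (1 : R) else 0) x = x.coeff c := by
  induction x using MonoidAlgebra.induction_linear with
  | zero => simp
  | add x y hx hy => rw [map_add, hx, hy, coeff_add, Finsupp.add_apply]
  | single h r =>
    rw [ell_single, coeff_single, Finsupp.single_apply]
    split_ifs <;> simp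

theorem coeff_map {Γ : Type v} [Group Γ] {Q : Type w} [Group Q] [DecidableEq Q] (φ : Γ →* Q)
    (x : MonoidAlgebra R Γ) (S : Finset Γ) (hS : ∀ g, x.coeff g ≠ 0 → g ∈ S) (c : Q) :
    (mapDomainRingHom R φ x).coeff c = ∑ g ∈ S, if φ g = c then x.coeff g else 0 := by
  rw [← ell_coeff c, ell_mapDomain, ell_eq_sum _ S x hS]
  refine Finset.sum_congr rfl fun g _ => ?_
  split_ifs <;> simp

/-- the finitely presented group with the generators `Fin m` and the relators `S` -/
abbrev FP (m : ℕ) (S : Finset (FreeGroup (Fin m))) : Type :=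
  FreeGroup (Fin m) ⧸ Subgroup.normalClosure (S : Set (FreeGroup (Fin m)))

/-- every idempotent matrix comes from a finitely presented group -/
theorem exists_fp {G : Type v} [Group G] {n : ℕ} (A : Matrix (Fin n) (Fin n) (MonoidAlgebra R G))
    (hA : A * A = A) :
    ∃ (m : ℕ) (S : Finset (FreeGroup (Fin m))) (ψ : FP m S →* G)
      (B : Matrix (Fin n) (Fin n) (MonoidAlgebra R (FP m S))),
      B * B = B ∧ B.map (mapDomainRingHom R ψ) = A := by
  classical
  let T : Finset G := Finset.univ.biUnion fun q : Fin n × Fin n => (A q.1 q.2).coeff.support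
  have hT : ∀ i j h, (A i j).coeff h ≠ 0 → h ∈ T := by
    intro i j h hh
    exact Finset.mem_biUnion.2 ⟨(i, j), Finset.mem_univ _, Finsupp.mem_support_iff.2 hh⟩
  let e := T.equivFin
  let π : FreeGroup (Fin T.card) →* G := FreeGroup.lift fun k => (e.symm k : G)
  let A0 : Matrix (Fin n) (Fin n) (MonoidAlgebra R (FreeGroup (Fin T.card))) :=
    Matrix.of fun i j => ∑ k : Fin T.card, single (FreeGroup.of k) ((A i j).coeff (e.symm k : G))
  have hA0 : A0.map (mapDomainRingHom R π) = A := by
    ext1 i j
    change mapDomainRingHom R π (∑ k : Fin T.card,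
      single (FreeGroup.of k) ((A i j).coeff (e.symm k : G))) = A i j
    rw [map_sum]
    have h1 : ∀ k ∈ (Finset.univ : Finset (Fin T.card)), mapDomainRingHom R π
        (single (FreeGroup.of k) ((A i j).coeff (e.symm k : G))) =
        single (e.symm k : G) ((A i j).coeff (e.symm k : G)) := by
      intro k _
      simp [π]
    rw [Finset.sum_congr rfl h1]
    rw [Equiv.sum_comp e.symm (fun t : T => single (t : G) ((A i j).coeff (t : G)))]
    rw [Finset.sum_coe_sort T (fun t => (single t ((A i j).coeff t) : MonoidAlgebra R G))]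
    ext h
    rw [coeff_sum, Finsupp.finsetSum_apply]
    have h2 : ∀ y ∈ T, (single y ((A i j).coeff y) : MonoidAlgebra R G).coeff h =
        if y = h then (A i j).coeff y else 0 := by
      intro y _
      rw [coeff_single, Finsupp.single_apply]
    rw [Finset.sum_congr rfl h2, Finset.sum_ite_eq']
    split_ifs with h3
    · rfl
    · by_contra hne
      exact h3 (hT i j h (Ne.symm hne))
  -- the defect
  let D := A0 * A0 - A0
  have hD : D.map (mapDomainRingHom R π) = 0 := by
    rw [Matrix.map_sub _ (fun a b => map_sub _ a b), Matrix.map_mul, hA0, hA, sub_self]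
  let W : Finset (FreeGroup (Fin T.card)) :=
    Finset.univ.biUnion fun q : Fin n × Fin n => (D q.1 q.2).coeff.support
  have hW : ∀ i j h, (D i j).coeff h ≠ 0 → h ∈ W := by
    intro i j h hh
    exact Finset.mem_biUnion.2 ⟨(i, j), Finset.mem_univ _, Finsupp.mem_support_iff.2 hh⟩
  let S : Finset (FreeGroup (Fin T.card)) :=
    ((W ×ˢ W).filter fun q => π q.1 = π q.2).image fun q => q.1 * q.2⁻¹
  have hSπ : Subgroup.normalClosure (S : Set (FreeGroup (Fin T.card))) ≤ π.ker := by
    apply Subgroup.normalClosure_le_normal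
    intro s hs
    obtain ⟨q, hq, rfl⟩ := Finset.mem_image.1 (Finset.mem_coe.1 hs)
    rw [SetLike.mem_coe, MonoidHom.mem_ker, map_mul, map_inv, (Finset.mem_filter.1 hq).2,
      mul_inv_cancel]
  let qm : FreeGroup (Fin T.card) →* FP T.card S := QuotientGroup.mk' _
  let ψ : FP T.card S →* G := QuotientGroup.lift _ π hSπ
  have hψ : ψ.comp qm = π := by
    ext k
    rfl
  refine ⟨T.card, S, ψ, A0.map (mapDomainRingHom R qm), ?_, ?_⟩
  · rw [← Matrix.map_mul, ← sub_eq_zero, ← Matrix.map_sub _ (fun a b => map_sub _ a b)]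
    ext1 i j
    apply MonoidAlgebra.coeff_injective
    ext c
    change (mapDomainRingHom R qm (D i j)).coeff c = 0
    rw [coeff_map qm (D i j) W (hW i j)]
    by_cases hc : ∃ u ∈ W, qm u = c
    · obtain ⟨u, hu, rfl⟩ := hc
      have h1 : (mapDomainRingHom R π (D i j)).coeff (π u) = 0 := by
        have h2 := congrFun (congrFun hD i) j
        change mapDomainRingHom R π (D i j) = 0 at h2
        rw [h2]
        rfl
      rw [coeff_map π (D i j) W (hW i j)] at h1
      rw [← h1]
      refine Finset.sum_congr rfl fun x hx => ?_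
      congr 1
      apply propext
      constructor
      · intro h
        rw [← hψ]
        change ψ (qm x) = ψ (qm u)
        rw [h]
      · intro h
        have h3 : x * u⁻¹ ∈ S := Finset.mem_image.2 ⟨(x, u), Finset.mem_filter.2
          ⟨Finset.mem_product.2 ⟨hx, hu⟩, h⟩, rfl⟩
        have h4 : qm (x * u⁻¹) = 1 :=
          (QuotientGroup.eq_one_iff _).2 (Subgroup.subset_normalClosure (Finset.mem_coe.2 h3))
        rw [map_mul, map_inv] at h4
        exact mul_inv_eq_one.1 h4
    · refine Finset.sum_eq_zero fun x hx => if_neg fun h => hc ⟨x, hx, h⟩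
  · rw [Matrix.map_map]
    have h1 : (mapDomainRingHom R ψ : MonoidAlgebra R (FP T.card S) → MonoidAlgebra R G) ∘
        (mapDomainRingHom R qm) = mapDomainRingHom R π := by
      funext x
      rw [← hψ]
      induction x using MonoidAlgebra.induction_linear with
      | zero => simp
      | add x y hx hy => simp only [Function.comp_apply, map_add] at hx hy ⊢; rw [hx, hy]
      | single h r => simp
    rw [h1, hA0]

end fp

end Pool.Agent.R701.Bass
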